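import Pool.Agent.TH376.TC.Reg

/-!
# Injectivity of the cycle maps on higher Chow groups and cubic hypersurfaces
-/

set_option autoImplicit false

open CategoryTheory CategoryTheory.Limits AlgebraicGeometry Pool.Agent.TH90.Cub
  Pool.Agent.TH376.TC

namespace Pool.Agent.Results.MP_b52861_ag.CubicHypersurfaces

/-- **Beilinson's injectivity over finite fields and cubic hypersurfaces.** Let `S` be a set which
contains `1` and generates the finite field `k`. The cycle maps from motivic to `ℓ`-adic Borel–Moore
homology are injective in all degrees for all quasi-projective varieties over `k` if and only if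
they are injective in all degrees for the hypersurfaces `E_g`, given by
`g_0 t_0 + ⋯ + g_r t_r = 0`, each `g_i` being one of `x_a x_b - x_c`, `x_a + x_b - x_c`, `x_a - c`
with `c` in `S`. In this case they are injective for all smooth quasi-projective varieties. -/
theorem result {k K : Type} [Field k] [Finite k] [Field K] [CharZero K] (T : CycleTheory k K)
    (hH : HProps T.toHMaps) (hT : T.Known) (S : Set k) (hS : Subfield.closure S = ⊤)
    (h1 : (1 : k) ∈ S) :
    ((∀ X : Sch k, QProj X → T.Injective X) ↔ ForCubics S T.Injective) ∧
      (ForCubics S T.Injective → ∀ X : Sch k, Smooth X.hom → QProj X → T.Injective X) :=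
  ⟨CycleTheory.injective_iff hH hT hS h1, fun h X _ hX =>
    (CycleTheory.injective_iff hH hT hS h1).mpr h X hX⟩

end Pool.Agent.Results.MP_b52861_ag.CubicHypersurfaces
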