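import Pool.Agent.TH117.GN.Wt

/-!
# Higher Chow groups over finite fields: varieties generated by abelian varieties, and complements of
arbitrary closed subschemes

Over an algebraic closure of the field with `p` elements each abelian variety is isogenous to the
reduction of an abelian variety of CM type (Honda, Tate). So an abelian variety over the field with
`p ^ a` elements is modelled by `RedAV`: a finite product of CM types `(E i, Φ i)` with Weil numbers
`π i ∈ E i` that satisfy the formula of Shimura and Taniyama; its cohomology of degree `n`, with
coefficients in an algebraically closed field `Ω`, consists of the alternating `n`-forms on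
`Ω ⊗ H_1`, on which the Frobenius endomorphism acts by `π`.

We consider (`IsGood`) the abelian varieties `Y` that are, over an algebraic closure, isogenous to a
product of a supersingular abelian variety and of powers of the factors of an abelian variety `Z`
(any Newton polygons), where one of the following holds:

* the dimension of `Z` is at most five, and no two factors of `Z` form an exceptional pair: two
  non-Galois quartic CM fields with the same Galois closure, or CM fields of degrees 2 and 8, with a
  special relation between the Frobenius eigenvalues (`IsExceptionalPair`);
* the factors of `Z` (in any number) have dimension at most three, and two factors whose CM fields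
  have the same Galois closure are isogenous, unless these fields are Galois over `ℚ` or one of the
  two factors is supersingular.

`Homology Ω V` are data of motivic homology `M X i j = H_i^M(X, ℚ(j))` and of `ℓ`-adic homology
`E X i j = H_i(X, ℚ_ℓ(j))` (coefficients extended to `Ω`) of schemes over a finite field. For a smooth
variety `X` of dimension `D` these are the groups `CH^c(X, 2 c - n)_ℚ` and `H^n(X, ℚ_ℓ(c))` with
`n = 2 D - i`, `c = D - j`. The class `Generated` contains the abelian varieties above, it contains the
schemes whose motives are direct summands of finite sums of twists of motives of members, and it
contains all of `Z`, `X`, `U = X ∖ Z` if it contains two of them.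

The theorem, for the schemes `X` of this class:

* all regulators (cycle class maps on higher Chow groups) of `X` induce isomorphisms with the spaces
  of Frobenius invariants, and the eigenvalue one is semisimple;
* let `Z` be an arbitrary closed subscheme of `X` of dimension at most `d`, and `U = X ∖ Z`. Then the
  same holds for `U` in all degrees `i` and for all twists `j ≥ d`. If `U` is smooth and `Z` has
  codimension at least `r`, these are all the groups `CH^c(U, m)` with `c ≤ r` and all `m`.
-/

namespace Pool.Agent.Results.MP_b52861_ag.WeightsUpToCodimension

open Pool.Agent.W495.FM Pool.Agent.TH117.GN

/-- Regulators of the members of the class, and of complements of closed subschemes. -/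
theorem result (p : ℕ) [Fact p.Prime] (ν : PadicAlgCl p ≃+* ℂ) (Ω : Type) [Field Ω]
    [IsAlgClosed Ω] [CharZero Ω] (V : Type) (T : Homology Ω V) (hT : IsHomology T) (X : V)
    (hX : Generated T (IsGood p ν T) X) :
    (∀ i j, IsRegIso T X i j) ∧ ∀ Z U d, IsTriple T Z X U → HasDimAtMost T Z d →
      ∀ i j, d ≤ j → IsRegIso T U i j :=
  ⟨tb_good2 hT hX, fun _ _ _ h hZ i _ hj => reg_opened hT h (tb_good2 hT hX) hZ hj i⟩

end Pool.Agent.Results.MP_b52861_ag.WeightsUpToCodimension
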